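import Pool.Agent.Q8.FI.Ht
import Pool.Agent.W513.FK.Parf

/-!
# The curves with a cyclic 4-isogeny by height: the number of the curves
-/

set_option autoImplicit false

namespace Pool.Agent.Q8.FI

open Finset Filter Topology

open Pool.Agent.W307.RT (Sh HasT Cv)

lemma sum_inv_four (T : ℕ) (hT : 1 ≤ T) :
    ∑ n ∈ Icc 2 T, (1 : ℝ) / (n : ℝ) ^ 4 ≤ 1 / 4 * (1 - 1 / T) := by
  induction T, hT using Nat.le_induction with
  | base => simp
  | succ T hT ih =>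
    rw [sum_Icc_succ_top (by omega)]
    have hT0 : (1 : ℝ) ≤ (T : ℝ) := by exact_mod_cast hT
    have h1 : (1 : ℝ) / ((T + 1 : ℕ) : ℝ) ^ 4 ≤ 1 / 4 * (1 / T - 1 / ((T + 1 : ℕ) : ℝ)) := by
      push_cast
      have e : (1 : ℝ) / 4 * (1 / T - 1 / (T + 1)) = 1 / (4 * (T * (T + 1))) := by
        field_simp
        ring
      rw [e]
      apply one_div_le_one_div_of_le (by positivity)
      have h2 : 4 * ((T : ℝ) * (T + 1)) ≤ (T + 1) ^ 2 * (T + 1) ^ 2 := by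
        have h3 : (4 : ℝ) ≤ (T + 1) ^ 2 := by nlinarith
        have h4 : (T : ℝ) * (T + 1) ≤ (T + 1) ^ 2 := by nlinarith
        exact mul_le_mul h3 h4 (by positivity) (by positivity)
      calc 4 * ((T : ℝ) * (T + 1)) ≤ (T + 1) ^ 2 * (T + 1) ^ 2 := h2
        _ = _ := by ring
    calc ∑ n ∈ Icc 2 T, (1 : ℝ) / (n : ℝ) ^ 4 + 1 / ((T + 1 : ℕ) : ℝ) ^ 4
        ≤ 1 / 4 * (1 - 1 / T) + 1 / 4 * (1 / T - 1 / ((T + 1 : ℕ) : ℝ)) := add_le_add ih h1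
      _ = _ := by ring

open Classical in
/-- the admissible pairs -/
noncomputable def PP (T : ℕ) : Finset (ℕ × ℕ) :=
  (Ioc 0 T ×ˢ Ioc 0 T).filter fun x => (∀ p : ℕ, p.Prime → ¬ (p ^ 2 ∣ x.1 ∧ p ^ 2 ∣ x.2)) ∧
    3 * x.1 ≠ 2 * x.2

lemma PP_card {T : ℕ} (hT : 4 ≤ T) : (1 / 2 : ℝ) * (T : ℝ) ^ 2 ≤ ((PP T).card : ℝ) := by
  classical
  obtain ⟨B1, hB1⟩ : ∃ B1 : Finset (ℕ × ℕ), B1 = (Icc 2 T).biUnion fun n =>
      ((Ioc 0 T).filter fun t => n ^ 2 ∣ t) ×ˢ ((Ioc 0 T).filter fun t => n ^ 2 ∣ t) := ⟨_, rfl⟩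
  obtain ⟨B2, hB2⟩ : ∃ B2 : Finset (ℕ × ℕ), B2 = (Ioc 0 T ×ˢ Ioc 0 T).filter
      fun x : ℕ × ℕ => 3 * x.1 = 2 * x.2 := ⟨_, rfl⟩
  have hcov : Ioc 0 T ×ˢ Ioc 0 T ⊆ PP T ∪ (B1 ∪ B2) := by
    intro x hx
    rw [mem_union, mem_union]
    by_cases h1 : 3 * x.1 = 2 * x.2
    · exact Or.inr (Or.inr (by rw [hB2]; exact mem_filter.2 ⟨hx, h1⟩))
    by_cases h2 : ∀ p : ℕ, p.Prime → ¬ (p ^ 2 ∣ x.1 ∧ p ^ 2 ∣ x.2)
    · exact Or.inl (mem_filter.2 ⟨hx, h2, h1⟩)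
    push Not at h2
    obtain ⟨p, hp, h3, h4⟩ := h2
    obtain ⟨hx1, hx2⟩ := mem_product.1 hx
    have hle : p ≤ T := by
      have := Nat.le_of_dvd (mem_Ioc.1 hx1).1 h3
      have h5 := Nat.le_self_pow (two_ne_zero) p
      have h6 := (mem_Ioc.1 hx1).2
      omega
    refine Or.inr (Or.inl ?_)
    rw [hB1, mem_biUnion]
    exact ⟨p, mem_Icc.2 ⟨hp.two_le, hle⟩, mem_product.2 ⟨mem_filter.2 ⟨hx1, h3⟩,
      mem_filter.2 ⟨hx2, h4⟩⟩⟩
  have h1 := (card_le_card hcov).trans ((card_union_le _ _).trans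
    (Nat.add_le_add_left (card_union_le _ _) _))
  rw [card_product, Nat.card_Ioc, Nat.sub_zero] at h1
  have h2 : (B1.card : ℝ) ≤ 1 / 4 * (T : ℝ) ^ 2 := by
    have h3 : B1.card ≤ ∑ n ∈ Icc 2 T, (T / n ^ 2) * (T / n ^ 2) := by
      rw [hB1]
      refine card_biUnion_le.trans (sum_le_sum fun n _ => ?_)
      rw [card_product, Nat.Ioc_filter_dvd_card_eq_div]
    have h4 : ((∑ n ∈ Icc 2 T, (T / n ^ 2) * (T / n ^ 2) : ℕ) : ℝ) ≤
        ∑ n ∈ Icc 2 T, (T : ℝ) ^ 2 * (1 / (n : ℝ) ^ 4) := by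
      push_cast
      refine sum_le_sum fun n hn => ?_
      have hn0 : (0 : ℝ) < n := by
        have := (mem_Icc.1 hn).1
        exact_mod_cast (by omega : 0 < n)
      have h5 : ((T / n ^ 2 : ℕ) : ℝ) ≤ (T : ℝ) / (n : ℝ) ^ 2 := by
        have := Nat.cast_div_le (α := ℝ) (m := T) (n := n ^ 2)
        push_cast at this
        exact this
      calc ((T / n ^ 2 : ℕ) : ℝ) * ((T / n ^ 2 : ℕ) : ℝ)
          ≤ ((T : ℝ) / (n : ℝ) ^ 2) * ((T : ℝ) / (n : ℝ) ^ 2) :=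
            mul_le_mul h5 h5 (Nat.cast_nonneg _) (by positivity)
        _ = _ := by
            field_simp
    rw [← mul_sum] at h4
    have h6 := sum_inv_four T (by omega)
    have h7 : (0 : ℝ) ≤ 1 / (T : ℝ) := by positivity
    calc (B1.card : ℝ) ≤ ((∑ n ∈ Icc 2 T, (T / n ^ 2) * (T / n ^ 2) : ℕ) : ℝ) := by
          exact_mod_cast h3
      _ ≤ (T : ℝ) ^ 2 * ∑ n ∈ Icc 2 T, 1 / (n : ℝ) ^ 4 := h4
      _ ≤ (T : ℝ) ^ 2 * (1 / 4 * (1 - 1 / T)) := mul_le_mul_of_nonneg_left h6 (by positivity)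
      _ ≤ (T : ℝ) ^ 2 * (1 / 4) := by
          apply mul_le_mul_of_nonneg_left _ (by positivity)
          linarith
      _ = _ := by ring
  have h3 : B2.card ≤ T := by
    have hinj : Set.InjOn (fun x : ℕ × ℕ => x.1) (B2 : Set (ℕ × ℕ)) := by
      intro x hx y hy hxy
      rw [hB2] at hx hy
      have h4 := (mem_filter.1 (mem_coe.1 hx)).2
      have h5 := (mem_filter.1 (mem_coe.1 hy)).2
      have hxy' : x.1 = y.1 := hxy
      exact Prod.ext hxy' (by omega)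
    have hmap : ∀ x ∈ B2, (fun x : ℕ × ℕ => x.1) x ∈ Ioc 0 T := by
      intro x hx
      rw [hB2] at hx
      exact (mem_product.1 (mem_filter.1 hx).1).1
    have := card_le_card_of_injOn _ hmap hinj
    rwa [Nat.card_Ioc, Nat.sub_zero] at this
  have h4 : (T : ℝ) * T ≤ (PP T).card + (B1.card + B2.card) := by exact_mod_cast h1
  have h5 : (B2.card : ℝ) ≤ T := by exact_mod_cast h3
  have h6 : (4 : ℝ) ≤ T := by exact_mod_cast hT
  nlinarith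

/-- the curve of a pair -/
def crvP (x : ℕ × ℕ) : ℤ × ℤ := (cA (x.1 : ℤ) (x.2 : ℤ), cB (x.1 : ℤ) (x.2 : ℤ))

open Classical in
lemma crvP_mem {T H : ℕ} (hH : 108 * T ^ 6 ≤ H) {x : ℕ × ℕ} (hx : x ∈ PP T) : crvP x ∈ F4 H := by
  obtain ⟨h1, h2, h3⟩ := mem_filter.1 hx
  obtain ⟨h4, h5⟩ := mem_product.1 h1
  obtain ⟨t, ht⟩ : ∃ t : ℤ, t = (x.1 : ℤ) := ⟨_, rfl⟩
  obtain ⟨s, hs⟩ : ∃ s : ℤ, s = (x.2 : ℤ) := ⟨_, rfl⟩
  obtain ⟨X, hX⟩ : ∃ X : ℤ, X = (T : ℤ) := ⟨_, rfl⟩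
  have ht0 : 0 < t := by rw [ht]; exact_mod_cast (mem_Ioc.1 h4).1
  have hs0 : 0 < s := by rw [hs]; exact_mod_cast (mem_Ioc.1 h5).1
  have htX : t ≤ X := by rw [ht, hX]; exact_mod_cast (mem_Ioc.1 h4).2
  have hsX : s ≤ X := by rw [hs, hX]; exact_mod_cast (mem_Ioc.1 h5).2
  have hne : 3 * t ≠ 2 * s := by rw [ht, hs]; exact_mod_cast h3
  have hH' : 108 * X ^ 6 ≤ (H : ℤ) := by rw [hX]; exact_mod_cast hH
  have hX1 : 1 ≤ X := by linarith
  have e : crvP x = (cA t s, cB t s) := by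
    unfold crvP
    rw [ht, hs]
  have ht2 : t ^ 2 ≤ X ^ 2 := pow_le_pow_left₀ ht0.le htX 2
  have hs2 : s ^ 2 ≤ X ^ 2 := pow_le_pow_left₀ hs0.le hsX 2
  have hA : |cA t s| ≤ 3 * X ^ 2 := by
    unfold cA
    rw [abs_le]
    constructor <;> nlinarith [sq_nonneg t, sq_nonneg s]
  have hB : |cB t s| ≤ 2 * X ^ 3 := by
    unfold cB
    have e1 : 2 * t ^ 3 - s ^ 2 * t = t * (2 * t ^ 2 - s ^ 2) := by ring
    rw [e1, abs_mul, abs_of_pos ht0]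
    have h6 : |2 * t ^ 2 - s ^ 2| ≤ 2 * X ^ 2 := by
      rw [abs_le]
      constructor <;> nlinarith [sq_nonneg t, sq_nonneg s]
    calc t * |2 * t ^ 2 - s ^ 2| ≤ X * (2 * X ^ 2) :=
          mul_le_mul htX h6 (abs_nonneg _) (by linarith)
      _ = _ := by ring
  have hX6 : X ^ 2 ≤ X ^ 6 := pow_le_pow_right₀ hX1 (by norm_num)
  have hX36 : X ^ 3 ≤ X ^ 6 := pow_le_pow_right₀ hX1 (by norm_num)
  have hX60 : 0 ≤ X ^ 6 := by positivity
  rw [e]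
  unfold F4
  rw [mem_filter, mem_product, mem_Icc, mem_Icc]
  refine ⟨⟨?_, ?_⟩, ?_, ?_, ?_, ?_, t, s, root_c t s, ?_⟩
  · exact abs_le.1 (show |cA t s| ≤ (H : ℤ) by linarith)
  · exact abs_le.1 (show |cB t s| ≤ (H : ℤ) by linarith)
  · show 4 * cA t s ^ 3 + 27 * cB t s ^ 2 ≠ 0
    rw [disc_c]
    refine mul_ne_zero (pow_ne_zero 4 hs0.ne') (mul_ne_zero ?_ ?_)
    · intro h
      apply hne
      linarith
    · positivity
  · show 4 * |cA t s| ^ 3 ≤ (H : ℤ)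
    have h7 : |cA t s| ^ 3 ≤ (3 * X ^ 2) ^ 3 := pow_le_pow_left₀ (abs_nonneg _) hA 3
    have e2 : (3 * X ^ 2) ^ 3 = 27 * X ^ 6 := by ring
    rw [e2] at h7
    linarith
  · show 27 * cB t s ^ 2 ≤ (H : ℤ)
    have h7 : |cB t s| ^ 2 ≤ (2 * X ^ 3) ^ 2 := pow_le_pow_left₀ (abs_nonneg _) hB 2
    have e2 : (2 * X ^ 3) ^ 2 = 4 * X ^ 6 := by ring
    rw [e2, sq_abs] at h7
    linarith
  · intro p hp hpd
    obtain ⟨⟨a, ha⟩, ⟨b, hb⟩⟩ := hpd
    have hpt : (p : ℤ) ^ 2 ∣ t := sq_dvd_root (A := a) (B := b) hp.ne_zero (by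
      have := root_c t s
      rw [show cA t s = (p : ℤ) ^ 4 * a from ha, show cB t s = (p : ℤ) ^ 6 * b from hb] at this
      exact this)
    have hps : (p : ℤ) ^ 2 ∣ s := by
      obtain ⟨q, hq⟩ := hpt
      have h8 : ((p : ℤ) ^ 2) ^ 2 ∣ s ^ 2 := by
        refine ⟨a + 3 * q ^ 2, ?_⟩
        have h9 : cA t s = (p : ℤ) ^ 4 * a := ha
        unfold cA at h9
        rw [hq] at h9
        linear_combination h9
      exact (Int.pow_dvd_pow_iff two_ne_zero).1 h8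
    refine h2 p hp ⟨?_, ?_⟩
    · rw [ht] at hpt
      exact_mod_cast hpt
    · rw [hs] at hps
      exact_mod_cast hps
  · show 3 * t ^ 2 + cA t s = s ^ 2
    unfold cA
    ring

lemma low {T H : ℕ} (hT : 4 ≤ T) (hH : 108 * T ^ 6 ≤ H) :
    (1 / 4 : ℝ) * (T : ℝ) ^ 2 ≤ ((F4 H).card : ℝ) := by
  classical
  have h1 := PP_card hT
  have h2 : (PP T).card ≤ 2 * (F4 H).card := by
    refine card_le_mul_card_image_of_maps_to (f := crvP) (fun x hx => crvP_mem hH hx) 2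
      fun b _ => ?_
    rcases ((PP T).filter fun x => crvP x = b).eq_empty_or_nonempty with he | ⟨x0, hx0⟩
    · rw [he]
      simp
    -- the fibre injects into the roots
    have hpos : ∀ x ∈ (PP T).filter fun x => crvP x = b, (0 : ℤ) < (x.1 : ℤ) ∧ (0 : ℤ) < (x.2 : ℤ) ∧
        cA (x.1 : ℤ) (x.2 : ℤ) = b.1 ∧ cB (x.1 : ℤ) (x.2 : ℤ) = b.2 := by
      intro x hx
      obtain ⟨g1, g2⟩ := mem_filter.1 hx
      obtain ⟨g3, -⟩ := mem_filter.1 g1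
      obtain ⟨g4, g5⟩ := mem_product.1 g3
      refine ⟨by exact_mod_cast (mem_Ioc.1 g4).1, by exact_mod_cast (mem_Ioc.1 g5).1, ?_, ?_⟩
      · rw [← g2]; rfl
      · rw [← g2]; rfl
    have hroot : ∀ x ∈ (PP T).filter fun x => crvP x = b,
        (x.1 : ℤ) ^ 3 + b.1 * x.1 + b.2 = 0 := by
      intro x hx
      obtain ⟨-, -, g3, g4⟩ := hpos x hx
      rw [← g3, ← g4]
      exact root_c _ _
    have hdet : ∀ x ∈ (PP T).filter (fun x => crvP x = b), ∀ y ∈ (PP T).filter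
        (fun x => crvP x = b), x.1 = y.1 → x = y := by
      intro x hx y hy hxy
      obtain ⟨-, g2, g3, -⟩ := hpos x hx
      obtain ⟨-, k2, k3, -⟩ := hpos y hy
      have h3 := g3.trans k3.symm
      unfold cA at h3
      rw [hxy] at h3
      have h4 : (x.2 : ℤ) ^ 2 = (y.2 : ℤ) ^ 2 := by linarith
      have h5 : (x.2 : ℤ) = (y.2 : ℤ) := (pow_left_inj₀ g2.le k2.le two_ne_zero).1 h4
      exact Prod.ext hxy (by exact_mod_cast h5)
    by_contra hcon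
    push Not at hcon
    obtain ⟨x, y, z, hx, hy, hz, hxy, hxz, hyz⟩ := two_lt_card_iff.1 hcon
    have n1 : (x.1 : ℤ) ≠ y.1 := fun h => hxy (hdet x hx y hy (by exact_mod_cast h))
    have n2 : (x.1 : ℤ) ≠ z.1 := fun h => hxz (hdet x hx z hz (by exact_mod_cast h))
    have n3 : (y.1 : ℤ) ≠ z.1 := fun h => hyz (hdet y hy z hz (by exact_mod_cast h))
    have r1 := hroot x hx
    have r2 := hroot y hy
    have r3 := hroot z hz
    have p1 := (hpos x hx).1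
    have p2 := (hpos y hy).1
    have p3 := (hpos z hz).1
    generalize (x.1 : ℤ) = a1 at *
    generalize (y.1 : ℤ) = a2 at *
    generalize (z.1 : ℤ) = a3 at *
    have q1 : (a1 - a2) * (a1 ^ 2 + a1 * a2 + a2 ^ 2 + b.1) = 0 := by linear_combination r1 - r2
    have q2 : (a1 - a3) * (a1 ^ 2 + a1 * a3 + a3 ^ 2 + b.1) = 0 := by linear_combination r1 - r3
    have q3 := (mul_eq_zero.1 q1).resolve_left (sub_ne_zero.2 n1)
    have q4 := (mul_eq_zero.1 q2).resolve_left (sub_ne_zero.2 n2)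
    have q5 : (a2 - a3) * (a1 + a2 + a3) = 0 := by linear_combination q3 - q4
    have q6 := (mul_eq_zero.1 q5).resolve_left (sub_ne_zero.2 n3)
    linarith
  have h3 : ((PP T).card : ℝ) ≤ 2 * (F4 H).card := by exact_mod_cast h2
  linarith

/-- the upper bound -/
lemma cv_up {H T : ℕ} (hT : 2 * H ≤ T ^ 6) : (Cv 2 H).card ≤ (2 * T + 1) ^ 2 := by
  classical
  have hex : ∀ c ∈ Cv 2 H, ∃ e : ℤ × ℤ, c.1 = -(e.1 ^ 2 + e.1 * e.2 + e.2 ^ 2) ∧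
      c.2 = e.1 * e.2 * (e.1 + e.2) ∧ e.1.natAbs ≤ T ∧ e.2.natAbs ≤ T := by
    intro c hc
    unfold Cv at hc
    obtain ⟨-, hD, hA, hB, -, hT2⟩ := mem_filter.1 hc
    obtain ⟨e1, e2, e3, he⟩ : ∃ e1 e2 e3 : ℤ, ∀ x : ℤ, x ^ 3 + c.1 * x + c.2 =
        (x - e1) * (x - e2) * (x - e3) := by
      obtain ⟨F, -, hF⟩ := Pool.Agent.W513.FK.parf
      obtain ⟨-, -, -, -, -, e1, e2, e3, h, -⟩ := hF c hD hT2
      exact ⟨e1, e2, e3, h⟩
    have h0 := he 0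
    have h1 := he 1
    have h2 := he (-1)
    have hs : e1 + e2 + e3 = 0 := by nlinarith
    have hA' : c.1 = e1 * e2 + e1 * e3 + e2 * e3 := by nlinarith
    have hB' : c.2 = -(e1 * e2 * e3) := by nlinarith
    have e3e : e3 = -(e1 + e2) := by linarith
    have hr : ∀ e : ℤ, e ^ 3 + c.1 * e + c.2 = 0 → e.natAbs ≤ T := by
      intro e h
      have h3 := root_le (H := (H : ℤ)) hA hB h
      have h4 : e.natAbs ^ 6 ≤ T ^ 6 := by
        have h5 : ((e.natAbs ^ 6 : ℕ) : ℤ) ≤ ((T ^ 6 : ℕ) : ℤ) := by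
          have h6 : ((e.natAbs ^ 6 : ℕ) : ℤ) = e ^ 6 := by
            push_cast
            rw [← abs_pow, abs_of_nonneg (by positivity : (0 : ℤ) ≤ e ^ 6)]
          rw [h6]
          have h7 : ((2 * H : ℕ) : ℤ) ≤ ((T ^ 6 : ℕ) : ℤ) := by exact_mod_cast hT
          push_cast at h7 ⊢
          linarith
        exact_mod_cast h5
      exact (Nat.pow_le_pow_iff_left (by norm_num)).1 h4
    refine ⟨(e1, e2), ?_, ?_, hr e1 ?_, hr e2 ?_⟩
    · show c.1 = -(e1 ^ 2 + e1 * e2 + e2 ^ 2)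
      rw [hA', e3e]
      ring
    · show c.2 = e1 * e2 * (e1 + e2)
      rw [hB', e3e]
      ring
    · rw [he]
      ring
    · rw [he]
      ring
  choose! e he using hex
  have hmap : ∀ c ∈ Cv 2 H, e c ∈ Icc (-(T : ℤ)) T ×ˢ Icc (-(T : ℤ)) T := by
    intro c hc
    obtain ⟨-, -, h3, h4⟩ := he c hc
    rw [mem_product, mem_Icc, mem_Icc]
    omega
  have hinj : Set.InjOn e (Cv 2 H : Set (ℤ × ℤ)) := by
    intro c hc c' hc' h
    obtain ⟨h1, h2, -, -⟩ := he c (mem_coe.1 hc)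
    obtain ⟨h3, h4, -, -⟩ := he c' (mem_coe.1 hc')
    rw [h] at h1 h2
    exact Prod.ext (h1.trans h3.symm) (h2.trans h4.symm)
  have h1 := card_le_card_of_injOn _ hmap hinj
  rw [card_product, Int.card_Icc] at h1
  have h2 : ((T : ℤ) + 1 - -(T : ℤ)).toNat = 2 * T + 1 := by omega
  rw [h2] at h1
  exact h1.trans (le_of_eq (by ring))

/-- the scale -/
lemma scale {H : ℕ} (hH : 108 * 4 ^ 6 ≤ H) : ∃ T : ℕ, 4 ≤ T ∧ 108 * T ^ 6 ≤ H ∧
    H < 108 * (T + 1) ^ 6 := by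
  obtain ⟨T, hT⟩ : ∃ T : ℕ, T = Nat.findGreatest (fun T => 108 * T ^ 6 ≤ H) H := ⟨_, rfl⟩
  have hbd : ∀ T : ℕ, 108 * T ^ 6 ≤ H → T ≤ H := by
    intro T h
    have := Nat.le_self_pow (n := 6) (by norm_num) T
    omega
  refine ⟨T, ?_, ?_, ?_⟩
  · rw [hT]
    exact Nat.le_findGreatest (hbd 4 hH) hH
  · rw [hT]
    exact Nat.findGreatest_spec (P := fun T => 108 * T ^ 6 ≤ H) (hbd 4 hH) hH
  · by_contra hcon
    push Not at hcon
    have := Nat.le_findGreatest (P := fun T => 108 * T ^ 6 ≤ H) (hbd (T + 1) hcon) hcon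
    omega

/-- the quotients are not more numerous -/
lemma cmp {H T : ℕ} (hT : 4 ≤ T) (h1 : 108 * T ^ 6 ≤ H) (h2 : H < 108 * (T + 1) ^ 6) :
    ((Cv 2 (KK * H)).card : ℝ) ≤ 19044 * (T : ℝ) ^ 2 ∧
      ((Cv 2 (KK * H)).card : ℝ) ≤ 76176 * ((F4 H).card : ℝ) := by
  have h3 : 2 * (KK * H) ≤ (34 * (T + 1)) ^ 6 := by
    have e : (34 * (T + 1)) ^ 6 = 1544804416 * (T + 1) ^ 6 := by ring
    rw [e]
    unfold KK
    have h4 : 2 * (6000480 * H) ≤ 12000960 * (108 * (T + 1) ^ 6) := by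
      have := Nat.mul_le_mul_left 12000960 h2.le
      omega
    refine h4.trans ?_
    rw [← mul_assoc]
    exact Nat.mul_le_mul_right _ (by norm_num)
  have h4 := cv_up h3
  have h5 : ((Cv 2 (KK * H)).card : ℝ) ≤ (2 * (34 * ((T : ℝ) + 1)) + 1) ^ 2 := by
    exact_mod_cast h4
  have hT' : (4 : ℝ) ≤ T := by exact_mod_cast hT
  have h6 : (2 * (34 * ((T : ℝ) + 1)) + 1) ^ 2 ≤ (138 * (T : ℝ)) ^ 2 :=
    pow_le_pow_left₀ (by positivity) (by linarith) 2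
  have h7 := low hT h1
  constructor
  · nlinarith
  · nlinarith

lemma F4_mono : Monotone F4 := by
  classical
  intro H H' h c hc
  unfold F4 at hc ⊢
  rw [mem_filter, mem_product, mem_Icc, mem_Icc] at hc ⊢
  have h' : (H : ℤ) ≤ H' := by exact_mod_cast h
  obtain ⟨⟨⟨a1, a2⟩, a3, a4⟩, b1, b2, b3, b4⟩ := hc
  exact ⟨⟨⟨by linarith, by linarith⟩, by linarith, by linarith⟩, b1, by linarith, by linarith, b4⟩

/-- for all heights -/
theorem ratio : ∃ C : ℝ, 0 ≤ C ∧ ∀ H : ℕ, (F4 H).Nonempty →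
    ((Cv 2 (KK * H)).card : ℝ) ≤ C * ((F4 H).card : ℝ) := by
  obtain ⟨H0, hH0⟩ : ∃ H0 : ℕ, H0 = 108 * 4 ^ 6 := ⟨_, rfl⟩
  obtain ⟨N, hN⟩ : ∃ N : ℕ, N = (Cv 2 (KK * H0)).card := ⟨_, rfl⟩
  have hN0 : (0 : ℝ) ≤ (N : ℝ) := Nat.cast_nonneg _
  refine ⟨76176 + N, by linarith, fun H hne => ?_⟩
  have h0 : (1 : ℝ) ≤ ((F4 H).card : ℝ) := by exact_mod_cast card_pos.2 hne
  rcases le_total H0 H with h | h
  · rw [hH0] at h
    obtain ⟨T, h1, h2, h3⟩ := scale h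
    have h4 := (cmp h1 h2 h3).2
    have h5 : (0 : ℝ) ≤ (N : ℝ) * ((F4 H).card : ℝ) := mul_nonneg hN0 (by linarith)
    linarith
  · have h1 : ((Cv 2 (KK * H)).card : ℝ) ≤ (N : ℝ) := by
      rw [hN]
      exact_mod_cast card_le_card (Pool.Agent.TH344.DT.Cv_mono (Nat.mul_le_mul_left KK h))
    nlinarith

/-- **the number of the curves** -/
theorem order : ∃ c C : ℝ, 0 < c ∧ ∀ᶠ H : ℕ in atTop,
    c * (H : ℝ) ^ ((1 : ℝ) / 3) ≤ ((F4 H).card : ℝ) ∧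
    ((F4 H).card : ℝ) ≤ C * (H : ℝ) ^ ((1 : ℝ) / 3) := by
  refine ⟨1 / 80, 114264, by norm_num, ?_⟩
  filter_upwards [eventually_ge_atTop (108 * 4 ^ 6)] with H hH
  obtain ⟨T, h1, h2, h3⟩ := scale hH
  have h4 := low h1 h2
  have h5 := (cmp h1 h2 h3).1
  have hT' : (4 : ℝ) ≤ T := by exact_mod_cast h1
  have h2' : 108 * (T : ℝ) ^ 6 ≤ H := by exact_mod_cast h2
  have h3' : (H : ℝ) ≤ 108 * ((T : ℝ) + 1) ^ 6 := by exact_mod_cast h3.le
  have hH0 : (0 : ℝ) ≤ H := Nat.cast_nonneg _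
  have hrt : ((H : ℝ) ^ ((1 : ℝ) / 3)) ^ 3 = H := by
    rw [← Real.rpow_natCast, ← Real.rpow_mul hH0]
    norm_num
  have hr0 : 0 ≤ (H : ℝ) ^ ((1 : ℝ) / 3) := Real.rpow_nonneg hH0 _
  constructor
  · have h6 : (H : ℝ) ^ ((1 : ℝ) / 3) ≤ 20 * (T : ℝ) ^ 2 := by
      refine le_of_pow_le_pow_left₀ three_ne_zero (by positivity) ?_
      rw [hrt]
      have h7 : ((T : ℝ) + 1) ^ 6 ≤ (2 * (T : ℝ)) ^ 6 :=
        pow_le_pow_left₀ (by positivity) (by linarith) 6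
      have h8 : 0 ≤ (T : ℝ) ^ 6 := by positivity
      nlinarith
    linarith
  · have h6 : (T : ℝ) ^ 2 ≤ (H : ℝ) ^ ((1 : ℝ) / 3) := by
      refine le_of_pow_le_pow_left₀ three_ne_zero hr0 ?_
      rw [hrt]
      have h8 : 0 ≤ (T : ℝ) ^ 6 := by positivity
      nlinarith
    have h7 : ((F4 H).card : ℝ) ≤ 6 * ((Cv 2 (KK * H)).card : ℝ) := by
      classical
      choose! φ hφ using fun c (hc : c ∈ F4 H) => quot_of hc
      have := sum_phi (S := F4 H) (T := Cv 2 (KK * H)) (φ := φ) (fun c hc => hφ c hc)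
        (g := fun _ => (1 : ℝ)) fun m => zero_le_one
      rwa [sum_const, sum_const, nsmul_eq_mul, nsmul_eq_mul, mul_one, mul_one] at this
    linarith

end Pool.Agent.Q8.FI
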