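import Pool.Agent.Q8.FI.Par

/-!
# From the curves with a cyclic 4-isogeny to their quotients: at most six to one
-/

set_option autoImplicit false

namespace Pool.Agent.Q8.FI

open Finset

open Pool.Agent.W307.RT (Sh HasT Cv)

/-- `m` is the minimal model of the quotient of `c` by a rational point of order two as in
`Iso.lean` -/
def RelP (c m : ℤ × ℤ) (t s : ℤ) (u : ℕ) : Prop :=
  c.1 = cA t s ∧ c.2 = cB t s ∧ s ≠ 0 ∧ 3 * t + 2 * s ≠ 0 ∧ 3 * t - 2 * s ≠ 0 ∧ u ≠ 0 ∧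
    dA t s = (u : ℤ) ^ 4 * m.1 ∧ dB t s = (u : ℤ) ^ 6 * m.2 ∧ Mn c.1 c.2 ∧ Mn m.1 m.2

/-- `m` is the minimal model of the quotient of `c` -/
def Rel (c m : ℤ × ℤ) : Prop := ∃ (t s : ℤ) (u : ℕ), RelP c m t s u

/-- the rank -/
noncomputable def rnk (c : ℤ × ℤ) : ℕ := Module.finrank ℤ (Sh c.1 c.2).toAffine.Point

lemma Rel.rank {c m : ℤ × ℤ} (h : Rel c m) : rnk c ≤ rnk m := by
  obtain ⟨t, s, u, h1, h2, hs, hp, hm, hu, hA, hB, -, -⟩ := h
  unfold rnk
  have h3 := rank_le t s hs hp hm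
  rw [← h1, ← h2, hA, hB, rank_sc m.1 m.2 hu] at h3
  exact h3

lemma Rel.hasT {c m : ℤ × ℤ} (h : Rel c m) : HasT 2 (Sh m.1 m.2) := by
  obtain ⟨t, s, u, h1, h2, hs, hp, hm, hu, hA, hB, -, -⟩ := h
  exact hasT_of hs hp hm hu hA hB

lemma Rel.disc {c m : ℤ × ℤ} (h : Rel c m) : 4 * m.1 ^ 3 + 27 * m.2 ^ 2 ≠ 0 := by
  obtain ⟨t, s, u, h1, h2, hs, hp, hm, hu, hA, hB, -, -⟩ := h
  intro h0
  have h3 := disc_d t s
  rw [hA, hB] at h3
  have h4 : -(16 * s ^ 2 * ((3 * t + 2 * s) * (3 * t - 2 * s)) ^ 2) = 0 := by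
    rw [← h3]
    linear_combination (u : ℤ) ^ 12 * h0
  rw [neg_eq_zero] at h4
  exact mul_ne_zero (mul_ne_zero (by norm_num) (pow_ne_zero 2 hs))
    (pow_ne_zero 2 (mul_ne_zero hp hm)) h4

/-- **at most six to one** -/
lemma fiber (m : ℤ × ℤ) (S : Finset (ℤ × ℤ)) (hS : ∀ c ∈ S, Rel c m) : S.card ≤ 6 := by
  classical
  choose! t s u h using hS
  have hu : ∀ c ∈ S, u c = 1 ∨ u c = 2 := fun c hc => by
    obtain ⟨h1, h2, hs, hp, hm, hu, hA, hB, hmn, -⟩ := h c hc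
    rw [h1, h2] at hmn
    exact u_le hmn hu hA hB
  have key : ∀ v : ℕ, (S.filter fun c => u c = v).card ≤ 3 := by
    intro v
    rcases (S.filter fun c => u c = v).eq_empty_or_nonempty with he | ⟨c0, hc0⟩
    · rw [he]
      simp
    obtain ⟨hc0S, hc0v⟩ := mem_filter.1 hc0
    obtain ⟨a1, a2, as, ap, am, au, aA, aB, -, -⟩ := h c0 hc0S
    rw [hc0v] at aA aB
    have hmap : ∀ c ∈ S.filter fun c => u c = v, -2 * t c ∈
        ({-2 * t c0, t c0 + 2 * s c0, t c0 - 2 * s c0} : Finset ℤ) := by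
      intro c hc
      obtain ⟨hcS, hcv⟩ := mem_filter.1 hc
      obtain ⟨b1, b2, bs, bp, bm, bu, bA, bB, -, -⟩ := h c hcS
      rw [hcv] at bA bB
      have h1 := root_d1 (t c) (s c)
      rw [bA, bB, ← aA, ← aB, fac_d] at h1
      rw [mem_insert, mem_insert, mem_singleton]
      rcases mul_eq_zero.1 h1 with h2 | h2
      · rcases mul_eq_zero.1 h2 with h3 | h3
        · exact Or.inl (by linarith)
        · exact Or.inr (Or.inl (by linarith))
      · exact Or.inr (Or.inr (by linarith))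
    have hinj : Set.InjOn (fun c => -2 * t c) ((S.filter fun c => u c = v : Finset (ℤ × ℤ)) :
        Set (ℤ × ℤ)) := by
      intro c hc c' hc' hcc
      obtain ⟨hcS, hcv⟩ := mem_filter.1 (mem_coe.1 hc)
      obtain ⟨hcS', hcv'⟩ := mem_filter.1 (mem_coe.1 hc')
      obtain ⟨b1, b2, bs, bp, bm, bu, bA, bB, -, -⟩ := h c hcS
      obtain ⟨d1, d2, ds, dp, dm, du, dA', dB', -, -⟩ := h c' hcS'
      rw [hcv] at bA
      rw [hcv'] at dA'
      have ht : t c = t c' := by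
        have : -2 * t c = -2 * t c' := hcc
        linarith
      have hs2 : s c ^ 2 = s c' ^ 2 := by
        have h1 := bA.trans dA'.symm
        unfold dA at h1
        rw [ht] at h1
        linarith
      refine Prod.ext ?_ ?_
      · rw [b1, d1]
        unfold cA
        rw [ht, hs2]
      · rw [b2, d2]
        unfold cB
        rw [ht, hs2]
    exact (card_le_card_of_injOn _ hmap hinj).trans card_le_three
  have hU : S ⊆ (S.filter fun c => u c = 1) ∪ (S.filter fun c => u c = 2) := by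
    intro c hc
    rw [mem_union, mem_filter, mem_filter]
    rcases hu c hc with h1 | h1
    · exact Or.inl ⟨hc, h1⟩
    · exact Or.inr ⟨hc, h1⟩
  have h1 := (card_le_card hU).trans (card_union_le _ _)
  have h2 := key 1
  have h3 := key 2
  omega

/-- sums over the quotients -/
lemma sum_phi {S T : Finset (ℤ × ℤ)} {φ : ℤ × ℤ → ℤ × ℤ} (hφ : ∀ c ∈ S, Rel c (φ c) ∧ φ c ∈ T)
    {g : ℤ × ℤ → ℝ} (hg : ∀ m, 0 ≤ g m) : ∑ c ∈ S, g (φ c) ≤ 6 * ∑ m ∈ T, g m := by
  classical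
  rw [← sum_fiberwise_of_maps_to (g := φ) (t := T) (fun c hc => (hφ c hc).2), mul_sum]
  refine sum_le_sum fun m _ => ?_
  have h1 : ∑ c ∈ S.filter (fun c => φ c = m), g (φ c) =
      ∑ _c ∈ S.filter (fun c => φ c = m), g m := by
    refine sum_congr rfl fun c hc => ?_
    rw [(mem_filter.1 hc).2]
  rw [h1, sum_const, nsmul_eq_mul]
  refine mul_le_mul_of_nonneg_right ?_ (hg m)
  have h2 := fiber m (S.filter fun c => φ c = m) fun c hc => by
    obtain ⟨h3, h4⟩ := mem_filter.1 hc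
    have h5 := (hφ c h3).1
    rwa [h4] at h5
  exact_mod_cast h2

end Pool.Agent.Q8.FI
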