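import Pool.Agent.Q8.FI.Fib
import Pool.Agent.TH344.DT.Main
import Pool.Agent.W307.FK.Main

/-!
# The curves with a cyclic 4-isogeny by height: upper bounds
-/

set_option autoImplicit false

namespace Pool.Agent.Q8.FI

open Finset Filter Topology

open Pool.Agent.W307.RT (Sh HasT Cv)

open Pool.Agent.W307.SE (SelR)

open Classical in
/-- the curves `y² = x³ + A x + B`, minimal, of height at most `H`, with a rational point `(t, 0)` of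
order two such that `3 t² + A` is a square -/
noncomputable def F4 (H : ℕ) : Finset (ℤ × ℤ) :=
  ((Icc (-(H : ℤ)) H) ×ˢ (Icc (-(H : ℤ)) H)).filter (fun c : ℤ × ℤ =>
    4 * c.1 ^ 3 + 27 * c.2 ^ 2 ≠ 0 ∧ 4 * |c.1| ^ 3 ≤ H ∧ 27 * c.2 ^ 2 ≤ H ∧
    (∀ p : ℕ, p.Prime → ¬ ((p : ℤ) ^ 4 ∣ c.1 ∧ (p : ℤ) ^ 6 ∣ c.2)) ∧
    ∃ t s : ℤ, t ^ 3 + c.1 * t + c.2 = 0 ∧ 3 * t ^ 2 + c.1 = s ^ 2)

lemma cube_le {x y : ℤ} (hx : 0 ≤ x) (hy : 0 ≤ y) : (x + y) ^ 3 ≤ 4 * (x ^ 3 + y ^ 3) := by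
  nlinarith [mul_nonneg (add_nonneg hx hy) (sq_nonneg (x - y))]

/-- the size of the roots -/
lemma root_le {A B t H : ℤ} (hA : 4 * |A| ^ 3 ≤ H) (hB : 27 * B ^ 2 ≤ H)
    (h : t ^ 3 + A * t + B = 0) : t ^ 6 ≤ 2 * H := by
  have ha : 0 ≤ |A| := abs_nonneg A
  have hb : 0 ≤ |B| := abs_nonneg B
  have hm : 0 ≤ |t| := abs_nonneg t
  have hB' : 27 * |B| ^ 2 ≤ H := by rw [sq_abs]; exact hB
  have h1 : |t| ^ 3 ≤ |A| * |t| + |B| := by
    have e : t ^ 3 = -(A * t + B) := by linarith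
    calc |t| ^ 3 = |A * t + B| := by rw [← abs_pow, e, abs_neg]
      _ ≤ |A * t| + |B| := abs_add_le _ _
      _ = _ := by rw [abs_mul]
  have e6 : t ^ 6 = |t| ^ 6 := by
    rw [← abs_pow, abs_of_nonneg (by positivity : (0 : ℤ) ≤ t ^ 6)]
  rw [e6]
  generalize |A| = a at *
  generalize |B| = b at *
  generalize |t| = m at *
  rcases le_total b (a * m) with h2 | h2
  · have h3 : m ^ 3 ≤ 2 * a * m := by linarith
    have h4 : m ^ 2 ≤ 2 * a := by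
      rcases hm.eq_or_lt with h0 | h0
      · rw [← h0]
        nlinarith
      · have : m ^ 2 * m ≤ 2 * a * m := by linarith
        exact le_of_mul_le_mul_right this h0
    have h5 : (m ^ 2) ^ 3 ≤ (2 * a) ^ 3 := pow_le_pow_left₀ (by positivity) h4 3
    nlinarith
  · have h3 : m ^ 3 ≤ 2 * b := by linarith
    have h5 : (m ^ 3) ^ 2 ≤ (2 * b) ^ 2 := pow_le_pow_left₀ (by positivity) h3 2
    nlinarith [sq_nonneg b]

open Classical in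
lemma par_of {c : ℤ × ℤ} {H : ℕ} (hc : c ∈ F4 H) : ∃ t s : ℤ, c.1 = cA t s ∧ c.2 = cB t s ∧
    s ≠ 0 ∧ 3 * t + 2 * s ≠ 0 ∧ 3 * t - 2 * s ≠ 0 ∧ t ^ 6 ≤ 2 * H ∧ s ^ 6 ≤ 217 * H ∧
    Mn c.1 c.2 := by
  unfold F4 at hc
  obtain ⟨-, hD, hA, hB, hmn, t, s, h1, h2⟩ := mem_filter.1 hc
  have e1 : c.1 = cA t s := by unfold cA; linarith
  have e2 : c.2 = cB t s := by
    unfold cB
    have : c.1 = s ^ 2 - 3 * t ^ 2 := by linarith
    rw [this] at h1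
    linarith
  have hD' : s ^ 4 * ((2 * s - 3 * t) * (2 * s + 3 * t)) ≠ 0 := by
    rw [← disc_c, ← e1, ← e2]
    exact hD
  have ht := root_le hA hB h1
  refine ⟨t, s, e1, e2, ?_, ?_, ?_, ht, ?_, hmn⟩
  · rintro rfl
    exact hD' (by ring)
  · intro h0
    apply hD'
    have : 2 * s + 3 * t = 0 := by linarith
    rw [this]
    ring
  · intro h0
    apply hD'
    have : 2 * s - 3 * t = 0 := by linarith
    rw [this]
    ring
  · have h3 : s ^ 2 ≤ 3 * t ^ 2 + |c.1| := by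
      rw [← h2]
      have := le_abs_self c.1
      linarith
    have h4 : (s ^ 2) ^ 3 ≤ (3 * t ^ 2 + |c.1|) ^ 3 := pow_le_pow_left₀ (by positivity) h3 3
    have h5 := cube_le (x := 3 * t ^ 2) (y := |c.1|) (by positivity) (abs_nonneg _)
    have e3 : (s ^ 2) ^ 3 = s ^ 6 := by ring
    have e4 : (3 * t ^ 2) ^ 3 = 27 * t ^ 6 := by ring
    rw [e3] at h4
    rw [e4] at h5
    linarith

/-- the constant -/
def KK : ℕ := 6000480

lemma quot_of {c : ℤ × ℤ} {H : ℕ} (hc : c ∈ F4 H) : ∃ m, Rel c m ∧ m ∈ Cv 2 (KK * H) := by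
  classical
  obtain ⟨t, s, e1, e2, hs, hp, hm, ht6, hs6, hmn⟩ := par_of hc
  have hne : dA t s ≠ 0 ∨ dB t s ≠ 0 := by
    left
    unfold dA
    have : 0 < s ^ 2 := by positivity
    nlinarith [sq_nonneg t]
  obtain ⟨u, A0, B0, hu, hA, hB, hM⟩ := exists_min hne
  have hR : Rel c (A0, B0) := ⟨t, s, u, e1, e2, hs, hp, hm, hu, hA, hB, hmn, hM⟩
  refine ⟨(A0, B0), hR, ?_⟩
  have hu1 : (1 : ℤ) ≤ (u : ℤ) := by exact_mod_cast Nat.one_le_iff_ne_zero.2 hu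
  have hH0 : (0 : ℤ) ≤ (H : ℤ) := Int.natCast_nonneg H
  have hK : ((KK * H : ℕ) : ℤ) = 6000480 * (H : ℤ) := by
    unfold KK
    push_cast
    ring
  have hA0 : |A0| ≤ |dA t s| := by
    rw [hA, abs_mul]
    have : (1 : ℤ) ≤ |(u : ℤ) ^ 4| := by
      rw [abs_of_nonneg (by positivity)]
      exact one_le_pow₀ hu1
    nlinarith [abs_nonneg A0]
  have hB0 : |B0| ≤ |dB t s| := by
    rw [hB, abs_mul]
    have : (1 : ℤ) ≤ |(u : ℤ) ^ 6| := by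
      rw [abs_of_nonneg (by positivity)]
      exact one_le_pow₀ hu1
    nlinarith [abs_nonneg B0]
  have hdA : |dA t s| ^ 3 ≤ 55768 * H := by
    have e : |dA t s| = 3 * t ^ 2 + 4 * s ^ 2 := by
      unfold dA
      rw [abs_of_nonpos (by nlinarith [sq_nonneg t, sq_nonneg s])]
      ring
    rw [e]
    have h5 := cube_le (x := 3 * t ^ 2) (y := 4 * s ^ 2) (by positivity) (by positivity)
    have e4 : (3 * t ^ 2) ^ 3 = 27 * t ^ 6 := by ring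
    have e5 : (4 * s ^ 2) ^ 3 = 64 * s ^ 6 := by ring
    rw [e4, e5] at h5
    linarith
  have hdB : dB t s ^ 2 ≤ 222240 * H := by
    have h5 := cube_le (x := t ^ 2) (y := 4 * s ^ 2) (by positivity) (by positivity)
    have e4 : (t ^ 2) ^ 3 = t ^ 6 := by ring
    have e5 : (4 * s ^ 2) ^ 3 = 64 * s ^ 6 := by ring
    rw [e4, e5] at h5
    have e6 : dB t s ^ 2 = 4 * (t ^ 2 * (t ^ 2 - 4 * s ^ 2) ^ 2) := by
      unfold dB
      ring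
    have h6 : t ^ 2 * (t ^ 2 - 4 * s ^ 2) ^ 2 ≤ (t ^ 2 + 4 * s ^ 2) ^ 3 := by
      have hx : 0 ≤ t ^ 2 := sq_nonneg t
      have hy : 0 ≤ 4 * s ^ 2 := by positivity
      generalize t ^ 2 = x at *
      generalize 4 * s ^ 2 = y at *
      have h7 : (x - y) ^ 2 ≤ (x + y) ^ 2 := by nlinarith [mul_nonneg hx hy]
      calc x * (x - y) ^ 2 ≤ (x + y) * (x + y) ^ 2 :=
            mul_le_mul (by linarith) h7 (sq_nonneg _) (by linarith)
        _ = _ := by ring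
    rw [e6]
    linarith
  have hA3 : |A0| ^ 3 ≤ 55768 * H := (pow_le_pow_left₀ (abs_nonneg _) hA0 3).trans hdA
  have hB2 : B0 ^ 2 ≤ 222240 * H := by
    have : |B0| ^ 2 ≤ |dB t s| ^ 2 := pow_le_pow_left₀ (abs_nonneg _) hB0 2
    rw [sq_abs, sq_abs] at this
    exact this.trans hdB
  have hA1 : |A0| ≤ |A0| ^ 3 := by
    rcases (abs_nonneg A0).eq_or_lt with h0 | h0
    · rw [← h0]
      norm_num
    · have h1 : (1 : ℤ) ≤ |A0| := h0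
      nlinarith [mul_nonneg h0.le (mul_nonneg (sub_nonneg.2 h1) (by linarith : (0 : ℤ) ≤ |A0| + 1))]
  have hB1 : |B0| ≤ B0 ^ 2 := by
    rw [← sq_abs]
    rcases (abs_nonneg B0).eq_or_lt with h0 | h0
    · rw [← h0]
      norm_num
    · have h1 : (1 : ℤ) ≤ |B0| := h0
      nlinarith
  unfold Cv
  rw [mem_filter, mem_product, mem_Icc, mem_Icc, hK]
  refine ⟨⟨?_, ?_⟩, hR.disc, ?_, ?_, hM, hR.hasT⟩
  · have := abs_le.1 (show |A0| ≤ 6000480 * (H : ℤ) by linarith)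
    exact this
  · have := abs_le.1 (show |B0| ≤ 6000480 * (H : ℤ) by linarith)
    exact this
  · show 4 * |A0| ^ 3 ≤ 6000480 * (H : ℤ)
    linarith
  · show 27 * B0 ^ 2 ≤ 6000480 * (H : ℤ)
    linarith

/-- **the second moment** -/
theorem avg_up : ∃ C : ℝ, 0 ≤ C ∧ ∀ H : ℕ,
    ∑ c ∈ F4 H, (4 : ℝ) ^ rnk c ≤ C * ((Cv 2 (KK * H)).card : ℝ) := by
  classical
  obtain ⟨C, hC⟩ := Pool.Agent.W307.FK.finh
  refine ⟨6 * |C|, by positivity, fun H => ?_⟩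
  choose! φ hφ using fun c (hc : c ∈ F4 H) => quot_of hc
  have h1 : ∑ c ∈ F4 H, (4 : ℝ) ^ rnk c ≤ ∑ c ∈ F4 H, (4 : ℝ) ^ rnk (φ c) :=
    sum_le_sum fun c hc => pow_le_pow_right₀ (by norm_num) (hφ c hc).1.rank
  have h2 := sum_phi (S := F4 H) (T := Cv 2 (KK * H)) (φ := φ) (fun c hc => hφ c hc)
    (g := fun m => (4 : ℝ) ^ rnk m) fun m => by positivity
  have h3 : ∑ m ∈ Cv 2 (KK * H), (4 : ℝ) ^ rnk m ≤ C * (Cv 2 (KK * H)).card := by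
    refine le_trans (sum_le_sum fun m hm => ?_) (hC (KK * H)).2
    have h4 : ((2 : ℝ) ^ rnk m) ≤ ((SelR m.1 m.2).ncard : ℝ) := by
      exact_mod_cast Pool.Agent.TH344.DT.rank_le2 hm
    have h5 : (4 : ℝ) ^ rnk m = ((2 : ℝ) ^ rnk m) ^ 2 := by
      rw [← pow_mul, mul_comm, pow_mul]
      norm_num
    rw [h5]
    exact pow_le_pow_left₀ (by positivity) h4 2
  have h6 : C * ((Cv 2 (KK * H)).card : ℝ) ≤ |C| * ((Cv 2 (KK * H)).card : ℝ) :=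
    mul_le_mul_of_nonneg_right (le_abs_self C) (Nat.cast_nonneg _)
  calc ∑ c ∈ F4 H, (4 : ℝ) ^ rnk c ≤ 6 * ∑ m ∈ Cv 2 (KK * H), (4 : ℝ) ^ rnk m := h1.trans h2
    _ ≤ 6 * (|C| * ((Cv 2 (KK * H)).card : ℝ)) := by linarith
    _ = _ := by ring

open Classical in
/-- **one exceptional set for all the moments** -/
theorem exc_up : ∃ X : Set (ℤ × ℤ), (∀ ε : ℝ, 0 < ε → ∃ H0 : ℕ, ∀ H, H0 ≤ H →
      (((F4 H).filter (fun c => c ∈ X)).card : ℝ) ≤ ε * (Cv 2 (KK * H)).card) ∧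
    ∀ k : ℕ, ∃ C : ℝ, 0 ≤ C ∧ ∀ H, ∑ c ∈ (F4 H).filter (fun c => c ∉ X),
      ((2 : ℝ) ^ rnk c) ^ k ≤ C * (Cv 2 (KK * H)).card := by
  obtain ⟨Z, hZ1, hZ2⟩ := Pool.Agent.TH344.DT.exc
  refine ⟨{c | ∃ m ∈ Z, Rel c m ∧ ∀ H, c ∈ F4 H → m ∈ Cv 2 (KK * H)}, fun ε hε => ?_, fun k => ?_⟩
  · obtain ⟨H0, h0⟩ := hZ1 (ε / 6) (by positivity)
    refine ⟨H0, fun H hH => ?_⟩
    have hHK : H0 ≤ KK * H := hH.trans (Nat.le_mul_of_pos_left H (by norm_num [KK]))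
    have h1 := h0 (KK * H) hHK
    obtain ⟨S, hS⟩ : ∃ S, S = (F4 H).filter (fun c => c ∈
        {c | ∃ m ∈ Z, Rel c m ∧ ∀ H, c ∈ F4 H → m ∈ Cv 2 (KK * H)}) := ⟨_, rfl⟩
    have hex : ∀ c ∈ S, ∃ m, Rel c m ∧ m ∈ (Cv 2 (KK * H)).filter (fun m => m ∈ Z) := by
      intro c hc
      rw [hS] at hc
      obtain ⟨h2, m, h3, h4, h5⟩ := mem_filter.1 hc
      exact ⟨m, h4, mem_filter.2 ⟨h5 H h2, h3⟩⟩
    choose! φ hφ using hex
    have h2 := sum_phi (S := S) (T := (Cv 2 (KK * H)).filter (fun m => m ∈ Z)) (φ := φ) hφ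
      (g := fun _ => (1 : ℝ)) fun m => zero_le_one
    rw [sum_const, sum_const, nsmul_eq_mul, nsmul_eq_mul, mul_one, mul_one] at h2
    rw [← hS]
    linarith
  · obtain ⟨C, hC⟩ := hZ2 k
    refine ⟨6 * |C|, by positivity, fun H => ?_⟩
    have hex : ∀ c ∈ (F4 H).filter (fun c => c ∉
        {c | ∃ m ∈ Z, Rel c m ∧ ∀ H, c ∈ F4 H → m ∈ Cv 2 (KK * H)}),
        ∃ m, Rel c m ∧ m ∈ (Cv 2 (KK * H)).filter (fun m => m ∉ Z) := by
      intro c hc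
      obtain ⟨h2, h3⟩ := mem_filter.1 hc
      -- take the least height
      obtain ⟨H1, h4, h5⟩ : ∃ H1, c ∈ F4 H1 ∧ ∀ H', c ∈ F4 H' → H1 ≤ H' := by
        have hne : ∃ H', c ∈ F4 H' := ⟨H, h2⟩
        exact ⟨Nat.find hne, Nat.find_spec hne, fun H' h' => Nat.find_min' hne h'⟩
      obtain ⟨m, h6, h7⟩ := quot_of h4
      have h8 : ∀ H', c ∈ F4 H' → m ∈ Cv 2 (KK * H') := fun H' h' =>
        Pool.Agent.TH344.DT.Cv_mono (Nat.mul_le_mul_left KK (h5 H' h')) h7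
      exact ⟨m, h6, mem_filter.2 ⟨h8 H h2, fun h9 => h3 ⟨m, h9, h6, h8⟩⟩⟩
    choose! φ hφ using hex
    have h1 : ∑ c ∈ (F4 H).filter (fun c => c ∉
        {c | ∃ m ∈ Z, Rel c m ∧ ∀ H, c ∈ F4 H → m ∈ Cv 2 (KK * H)}), ((2 : ℝ) ^ rnk c) ^ k ≤
        ∑ c ∈ (F4 H).filter (fun c => c ∉
        {c | ∃ m ∈ Z, Rel c m ∧ ∀ H, c ∈ F4 H → m ∈ Cv 2 (KK * H)}), ((2 : ℝ) ^ rnk (φ c)) ^ k :=
      sum_le_sum fun c hc => pow_le_pow_left₀ (by positivity)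
        (pow_le_pow_right₀ (by norm_num) (hφ c hc).1.rank) k
    have h2 := sum_phi (T := (Cv 2 (KK * H)).filter (fun m => m ∉ Z)) (φ := φ) hφ
      (g := fun m => ((2 : ℝ) ^ rnk m) ^ k) fun m => by positivity
    have h3 : ∑ m ∈ (Cv 2 (KK * H)).filter (fun m => m ∉ Z), ((2 : ℝ) ^ rnk m) ^ k ≤
        C * (Cv 2 (KK * H)).card := by
      refine le_trans (sum_le_sum fun m hm => ?_) (hC (KK * H))
      have h4 : ((2 : ℝ) ^ rnk m) ≤ ((SelR m.1 m.2).ncard : ℝ) := by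
        exact_mod_cast Pool.Agent.TH344.DT.rank_le2 (mem_filter.1 hm).1
      exact pow_le_pow_left₀ (by positivity) h4 k
    have h6 : C * ((Cv 2 (KK * H)).card : ℝ) ≤ |C| * ((Cv 2 (KK * H)).card : ℝ) :=
      mul_le_mul_of_nonneg_right (le_abs_self C) (Nat.cast_nonneg _)
    refine (h1.trans h2).trans ?_
    linarith

end Pool.Agent.Q8.FI
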