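import Pool.Agent.Q8.NS.Rk
import Pool.Agent.W261.RT.Iso
import Pool.Agent.W672.FK.Lowf

/-!
# Curves with a cyclic 4-isogeny and curves with full 2-torsion: the ranks

`E : y² = x³ + A x + B` has a rational point `(t, 0)` of order two and `3 t² + A = c²` is a square. Then
`A = c² - 3 t²`, `B = 2 t³ - c² t`, and the quotient of `E` by `(t, 0)` is
`E' : y² = (x + 2 t) (x - t - 2 c) (x - t + 2 c)`.
-/

set_option autoImplicit false

namespace Pool.Agent.Q8.FI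

open WeierstrassCurve

open Pool.Agent.W307.RT (Sh HasT)

open Pool.Agent.TH841.LS (WI)

open Pool.Agent.TH841.PT (EQ)

/-- the curve with the point `(t, 0)` and `3 t² + A = c²` -/
def cA (t c : ℤ) : ℤ := c ^ 2 - 3 * t ^ 2

/-- the second coefficient -/
def cB (t c : ℤ) : ℤ := 2 * t ^ 3 - c ^ 2 * t

/-- the quotient -/
def dA (t c : ℤ) : ℤ := -3 * t ^ 2 - 4 * c ^ 2

/-- the second coefficient of the quotient -/
def dB (t c : ℤ) : ℤ := 2 * t * (t ^ 2 - 4 * c ^ 2)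

lemma finrank_congr {G H : Type} [AddCommGroup G] [AddCommGroup H] (e : G ≃+ H) :
    Module.finrank ℤ G = Module.finrank ℤ H :=
  LinearEquiv.finrank_eq e.toIntLinearEquiv

lemma rank_c (t c : ℤ) : Module.finrank ℤ (Sh (cA t c) (cB t c)).toAffine.Point =
    Module.finrank ℤ (WI (3 * t + 2 * c) (3 * t - 2 * c)).toAffine.Point := by
  obtain ⟨e⟩ := Pool.Agent.W261.RT.iso 0 (cA t c : ℤ) (cB t c : ℤ) t (1 / 2) (by norm_num)
  have h1 : (⟨0, (0 + 3 * (t : ℚ)) / (1 / 2) ^ 2, 0,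
      (((cA t c : ℤ) : ℚ) + 2 * t * 0 + 3 * (t : ℚ) ^ 2) / (1 / 2) ^ 4,
      (((cB t c : ℤ) : ℚ) + t * ((cA t c : ℤ) : ℚ) + (t : ℚ) ^ 2 * 0 + (t : ℚ) ^ 3) / (1 / 2) ^ 6⟩ :
      WeierstrassCurve ℚ) = WI (3 * t + 2 * c) (3 * t - 2 * c) := by
    unfold WI cA cB
    congr 1
    · push_cast
      ring
    · push_cast
      ring
    · push_cast
      ring
  rw [h1] at e
  exact finrank_congr e

lemma rank_d (t c : ℤ) : Module.finrank ℤ (EQ (3 * t + 2 * c) (3 * t - 2 * c)).toAffine.Point =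
    Module.finrank ℤ (Sh (dA t c) (dB t c)).toAffine.Point := by
  obtain ⟨e⟩ := Pool.Agent.W261.RT.iso (-(((3 * t + 2 * c : ℤ) : ℚ) + ((3 * t - 2 * c : ℤ) : ℚ)))
    (((3 * t + 2 * c : ℤ) : ℚ) * ((3 * t - 2 * c : ℤ) : ℚ)) 0 (2 * t) 1 one_ne_zero
  have h1 : (⟨0, (-(((3 * t + 2 * c : ℤ) : ℚ) + ((3 * t - 2 * c : ℤ) : ℚ)) + 3 * (2 * (t : ℚ))) / 1 ^ 2,
      0, ((((3 * t + 2 * c : ℤ) : ℚ) * ((3 * t - 2 * c : ℤ) : ℚ)) + 2 * (2 * (t : ℚ)) *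
        (-(((3 * t + 2 * c : ℤ) : ℚ) + ((3 * t - 2 * c : ℤ) : ℚ))) + 3 * (2 * (t : ℚ)) ^ 2) / 1 ^ 4,
      (0 + 2 * (t : ℚ) * (((3 * t + 2 * c : ℤ) : ℚ) * ((3 * t - 2 * c : ℤ) : ℚ)) + (2 * (t : ℚ)) ^ 2 *
        (-(((3 * t + 2 * c : ℤ) : ℚ) + ((3 * t - 2 * c : ℤ) : ℚ))) + (2 * (t : ℚ)) ^ 3) / 1 ^ 6⟩ :
      WeierstrassCurve ℚ) = Sh (dA t c) (dB t c) := by
    unfold Sh dA dB
    congr 1
    · push_cast
      ring
    · push_cast
      ring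
    · push_cast
      ring
  rw [h1] at e
  exact finrank_congr e

/-- scaling -/
lemma rank_sc (A B : ℤ) {u : ℕ} (hu : u ≠ 0) :
    Module.finrank ℤ (Sh ((u : ℤ) ^ 4 * A) ((u : ℤ) ^ 6 * B)).toAffine.Point =
      Module.finrank ℤ (Sh A B).toAffine.Point := by
  have hu' : (u : ℚ) ≠ 0 := by exact_mod_cast hu
  obtain ⟨e⟩ := Pool.Agent.W261.RT.iso 0 (((u : ℤ) ^ 4 * A : ℤ) : ℚ) (((u : ℤ) ^ 6 * B : ℤ) : ℚ) 0
    (u : ℚ) hu'
  have h1 : (⟨0, (0 + 3 * (0 : ℚ)) / (u : ℚ) ^ 2, 0,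
      ((((u : ℤ) ^ 4 * A : ℤ) : ℚ) + 2 * 0 * 0 + 3 * (0 : ℚ) ^ 2) / (u : ℚ) ^ 4,
      ((((u : ℤ) ^ 6 * B : ℤ) : ℚ) + 0 * (((u : ℤ) ^ 4 * A : ℤ) : ℚ) + (0 : ℚ) ^ 2 * 0 + (0 : ℚ) ^ 3) /
        (u : ℚ) ^ 6⟩ : WeierstrassCurve ℚ) = Sh A B := by
    unfold Sh
    congr 1
    · simp
    · push_cast
      field_simp
      ring
    · push_cast
      field_simp
      ring
  rw [h1] at e
  exact finrank_congr e

/-- **the rank does not grow** -/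
theorem rank_le (t c : ℤ) (hc : c ≠ 0) (h1 : 3 * t + 2 * c ≠ 0) (h2 : 3 * t - 2 * c ≠ 0) :
    Module.finrank ℤ (Sh (cA t c) (cB t c)).toAffine.Point ≤
      Module.finrank ℤ (Sh (dA t c) (dB t c)).toAffine.Point := by
  rw [rank_c, ← rank_d]
  exact Pool.Agent.Q8.NS.rk_WI (by omega) h1 h2

/-- full 2-torsion of the minimal model of the quotient -/
lemma hasT_of {t c : ℤ} (hc : c ≠ 0) (h1 : 3 * t + 2 * c ≠ 0) (h2 : 3 * t - 2 * c ≠ 0) {u : ℕ}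
    (hu : u ≠ 0) {A B : ℤ} (hA : dA t c = (u : ℤ) ^ 4 * A) (hB : dB t c = (u : ℤ) ^ 6 * B) :
    HasT 2 (Sh A B) := by
  have hu' : (u : ℚ) ≠ 0 := by exact_mod_cast hu
  have hA' : ((dA t c : ℤ) : ℚ) = (u : ℚ) ^ 4 * A := by rw [hA]; push_cast; rfl
  have hB' : ((dB t c : ℤ) : ℚ) = (u : ℚ) ^ 6 * B := by rw [hB]; push_cast; rfl
  have h1' : (3 * (t : ℚ) + 2 * c) ≠ 0 := by exact_mod_cast h1
  have h2' : (3 * (t : ℚ) - 2 * c) ≠ 0 := by exact_mod_cast h2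
  have hc' : (c : ℚ) ≠ 0 := by exact_mod_cast hc
  refine Pool.Agent.W672.FK.hasT2 (a := ((t : ℚ) - 2 * c / 3) / u ^ 2)
    (b := ((t : ℚ) + 2 * c / 3) / u ^ 2) ?_ ?_ ?_ ?_ ?_
  · have e : (A : ℚ) = ((dA t c : ℤ) : ℚ) / u ^ 4 := by rw [hA']; field_simp
    rw [e]
    unfold dA
    push_cast
    field_simp
    ring
  · have e : (B : ℚ) = ((dB t c : ℤ) : ℚ) / u ^ 6 := by rw [hB']; field_simp
    rw [e]
    unfold dB
    push_cast
    field_simp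
    ring
  · refine div_ne_zero ?_ (by positivity)
    intro h
    apply h2'
    linarith
  · refine div_ne_zero ?_ (by positivity)
    intro h
    apply h1'
    linarith
  · rw [← sub_div]
    refine div_ne_zero ?_ (by positivity)
    intro h
    apply hc'
    linarith

end Pool.Agent.Q8.FI
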