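import Pool.Agent.Q8.FI.Iso

/-!
# Parametrisation of the curves with a rational cyclic 4-isogeny
-/

set_option autoImplicit false

namespace Pool.Agent.Q8.FI

open Finset

/-- no prime `p` with `p⁴ ∣ A` and `p⁶ ∣ B` -/
def Mn (A B : ℤ) : Prop := ∀ p : ℕ, p.Prime → ¬ ((p : ℤ) ^ 4 ∣ A ∧ (p : ℤ) ^ 6 ∣ B)

lemma disc_c (t s : ℤ) : 4 * cA t s ^ 3 + 27 * cB t s ^ 2 =
    s ^ 4 * ((2 * s - 3 * t) * (2 * s + 3 * t)) := by
  unfold cA cB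
  ring

lemma disc_d (t s : ℤ) : 4 * dA t s ^ 3 + 27 * dB t s ^ 2 =
    -(16 * s ^ 2 * ((3 * t + 2 * s) * (3 * t - 2 * s)) ^ 2) := by
  unfold dA dB
  ring

/-- an integral root of `x³ + u⁴ A x + u⁶ B` is divisible by `u²` -/
lemma sq_dvd_root {A B r : ℤ} {u : ℕ} (hu : u ≠ 0)
    (h : r ^ 3 + (u : ℤ) ^ 4 * A * r + (u : ℤ) ^ 6 * B = 0) : (u : ℤ) ^ 2 ∣ r := by
  have hu2 : (u : ℤ) ^ 2 ≠ 0 := by positivity
  set g : ℤ := (Int.gcd r ((u : ℤ) ^ 2) : ℤ) with hg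
  have hg0 : g ≠ 0 := by
    rw [hg]
    exact_mod_cast (Int.gcd_pos_of_ne_zero_right r hu2).ne'
  obtain ⟨r1, hr1⟩ : g ∣ r := Int.gcd_dvd_left ..
  obtain ⟨w, hw⟩ : g ∣ (u : ℤ) ^ 2 := Int.gcd_dvd_right ..
  have hcop : IsCoprime w r1 := by
    rw [Int.isCoprime_iff_gcd_eq_one, Int.gcd_comm]
    have h1 : Int.gcd (g * r1) (g * w) = g.natAbs * Int.gcd r1 w := Int.gcd_mul_left ..
    rw [← hr1, ← hw] at h1
    have h2 : g.natAbs = Int.gcd r ((u : ℤ) ^ 2) := by rw [hg]; simp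
    rw [h2] at h1
    have h3 : 0 < Int.gcd r ((u : ℤ) ^ 2) := Int.gcd_pos_of_ne_zero_right r hu2
    exact Nat.eq_of_mul_eq_mul_left h3 (h1.symm.trans (mul_one _).symm)
  have h1 : r1 ^ 3 + w ^ 2 * A * r1 + w ^ 3 * B = 0 := by
    have e4 : (u : ℤ) ^ 4 = (g * w) ^ 2 := by rw [← hw]; ring
    have e6 : (u : ℤ) ^ 6 = (g * w) ^ 3 := by rw [← hw]; ring
    rw [e4, e6, hr1] at h
    have h5 : g ^ 3 * (r1 ^ 3 + w ^ 2 * A * r1 + w ^ 3 * B) = 0 := by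
      linear_combination h
    exact (mul_eq_zero.1 h5).resolve_left (pow_ne_zero 3 hg0)
  have h2 : w ∣ r1 ^ 3 := ⟨-(w * A * r1 + w ^ 2 * B), by linear_combination h1⟩
  have h3 : IsUnit w := (hcop.pow_right (n := 3)).isUnit_of_dvd' dvd_rfl h2
  obtain ⟨v, hv⟩ := h3.dvd (a := r1)
  exact ⟨v, by rw [hw, hr1, hv]; ring⟩

lemma root_d1 (t s : ℤ) : (-2 * t) ^ 3 + dA t s * (-2 * t) + dB t s = 0 := by
  unfold dA dB
  ring

lemma root_d2 (t s : ℤ) : (t + 2 * s) ^ 3 + dA t s * (t + 2 * s) + dB t s = 0 := by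
  unfold dA dB
  ring

lemma root_d3 (t s : ℤ) : (t - 2 * s) ^ 3 + dA t s * (t - 2 * s) + dB t s = 0 := by
  unfold dA dB
  ring

lemma fac_d (t s x : ℤ) : x ^ 3 + dA t s * x + dB t s =
    (x + 2 * t) * (x - t - 2 * s) * (x - t + 2 * s) := by
  unfold dA dB
  ring

lemma root_c (t s : ℤ) : t ^ 3 + cA t s * t + cB t s = 0 := by
  unfold cA cB
  ring

/-- a prime square cannot divide `t` and `s` -/
lemma not_sq_dvd {t s : ℤ} (h : Mn (cA t s) (cB t s)) {p : ℕ} (hp : p.Prime)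
    (h1 : (p : ℤ) ^ 2 ∣ t) (h2 : (p : ℤ) ^ 2 ∣ s) : False := by
  obtain ⟨a, rfl⟩ := h1
  obtain ⟨b, rfl⟩ := h2
  refine h p hp ⟨⟨b ^ 2 - 3 * a ^ 2, ?_⟩, ⟨2 * a ^ 3 - b ^ 2 * a, ?_⟩⟩
  · unfold cA
    ring
  · unfold cB
    ring

/-- the scaling factor is 1 or 2 -/
lemma u_le {t s : ℤ} (h : Mn (cA t s) (cB t s)) {u : ℕ} (hu : u ≠ 0) {A B : ℤ}
    (hA : dA t s = (u : ℤ) ^ 4 * A) (hB : dB t s = (u : ℤ) ^ 6 * B) : u = 1 ∨ u = 2 := by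
  have h1 : (u : ℤ) ^ 2 ∣ -2 * t := sq_dvd_root hu (by
    have := root_d1 t s
    rw [hA, hB] at this
    exact this)
  have h2 : (u : ℤ) ^ 2 ∣ t + 2 * s := sq_dvd_root hu (by
    have := root_d2 t s
    rw [hA, hB] at this
    exact this)
  have h3 : (u : ℤ) ^ 2 ∣ t - 2 * s := sq_dvd_root hu (by
    have := root_d3 t s
    rw [hA, hB] at this
    exact this)
  have h4 : (u : ℤ) ^ 2 ∣ 4 * s := by
    have := dvd_sub h2 h3
    have e : t + 2 * s - (t - 2 * s) = 4 * s := by ring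
    rwa [e] at this
  have h5 : (u : ℤ) ^ 2 ∣ 2 * t := by
    have := (dvd_neg (a := (u : ℤ) ^ 2) (b := -2 * t)).2 h1
    have e : -(-2 * t) = 2 * t := by ring
    rwa [e] at this
  rcases Nat.eq_two_pow_or_exists_odd_prime_and_dvd u with ⟨k, hk⟩ | ⟨p, hp, hpu, hodd⟩
  · rcases k with _ | _ | k
    · exact Or.inl (by rw [hk]; norm_num)
    · exact Or.inr (by rw [hk]; norm_num)
    · exfalso
      have h6 : (4 : ℤ) ∣ (u : ℤ) := ⟨2 ^ k, by rw [hk]; push_cast; ring⟩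
      have h7 : (16 : ℤ) ∣ (u : ℤ) ^ 2 := by
        have := pow_dvd_pow_of_dvd h6 2
        norm_num at this
        exact this
      have h8 := h7.trans h4
      have h9 := h7.trans h5
      exact not_sq_dvd h Nat.prime_two (by norm_num; omega) (by norm_num; omega)
  · exfalso
    have h6 : (p : ℤ) ^ 2 ∣ (u : ℤ) ^ 2 := pow_dvd_pow_of_dvd (by exact_mod_cast hpu) 2
    have hp2 : IsCoprime ((p : ℤ) ^ 2) 2 := by
      have : IsCoprime (p : ℤ) 2 := by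
        rw [Int.isCoprime_iff_gcd_eq_one]
        have : Nat.Coprime p 2 := by
          rw [Nat.coprime_two_right]
          exact hodd
        exact_mod_cast this
      exact this.pow_left
    have h7 : (p : ℤ) ^ 2 ∣ t := hp2.dvd_of_dvd_mul_left (h6.trans h5)
    have h8 : (p : ℤ) ^ 2 ∣ s := by
      have h9 : (p : ℤ) ^ 2 ∣ 2 * (2 * s) := by
        have := h6.trans h4
        have e : 4 * s = 2 * (2 * s) := by ring
        rwa [e] at this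
      exact hp2.dvd_of_dvd_mul_left (hp2.dvd_of_dvd_mul_left h9)
    exact not_sq_dvd h hp h7 h8

/-- the minimal model -/
lemma exists_min {A B : ℤ} (h : A ≠ 0 ∨ B ≠ 0) : ∃ (u : ℕ) (A0 B0 : ℤ), u ≠ 0 ∧
    A = (u : ℤ) ^ 4 * A0 ∧ B = (u : ℤ) ^ 6 * B0 ∧ Mn A0 B0 := by
  classical
  obtain ⟨N, hN⟩ : ∃ N : ℕ, N = A.natAbs + B.natAbs := ⟨_, rfl⟩
  have hbd : ∀ u : ℕ, ((u : ℤ) ^ 4 ∣ A ∧ (u : ℤ) ^ 6 ∣ B) → u ≤ N := by
    intro u hu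
    rcases h with h | h
    · have h1 : (u ^ 4 : ℕ) ∣ A.natAbs := by
        have := Int.natAbs_dvd_natAbs.2 hu.1
        rwa [Int.natAbs_pow, Int.natAbs_natCast] at this
      have h2 := Nat.le_of_dvd (Int.natAbs_pos.2 h) h1
      have h3 : u ≤ u ^ 4 := Nat.le_self_pow (by norm_num) u
      omega
    · have h1 : (u ^ 6 : ℕ) ∣ B.natAbs := by
        have := Int.natAbs_dvd_natAbs.2 hu.2
        rwa [Int.natAbs_pow, Int.natAbs_natCast] at this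
      have h2 := Nat.le_of_dvd (Int.natAbs_pos.2 h) h1
      have h3 : u ≤ u ^ 6 := Nat.le_self_pow (by norm_num) u
      omega
  have hone : ((1 : ℕ) : ℤ) ^ 4 ∣ A ∧ ((1 : ℕ) : ℤ) ^ 6 ∣ B := by simp
  obtain ⟨u, hu⟩ : ∃ u : ℕ, u = Nat.findGreatest (fun u : ℕ => (u : ℤ) ^ 4 ∣ A ∧ (u : ℤ) ^ 6 ∣ B) N :=
    ⟨_, rfl⟩
  have hspec : (u : ℤ) ^ 4 ∣ A ∧ (u : ℤ) ^ 6 ∣ B := by
    rw [hu]
    exact Nat.findGreatest_spec (P := fun u : ℕ => (u : ℤ) ^ 4 ∣ A ∧ (u : ℤ) ^ 6 ∣ B)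
      (hbd 1 hone) hone
  have hge : ∀ v : ℕ, ((v : ℤ) ^ 4 ∣ A ∧ (v : ℤ) ^ 6 ∣ B) → v ≤ u := by
    intro v hv
    rw [hu]
    exact Nat.le_findGreatest (hbd v hv) hv
  have hu1 : 1 ≤ u := hge 1 hone
  obtain ⟨⟨A0, hA0⟩, ⟨B0, hB0⟩⟩ := hspec
  refine ⟨u, A0, B0, by omega, hA0, hB0, fun p hp hpd => ?_⟩
  obtain ⟨⟨a, ha⟩, ⟨b, hb⟩⟩ := hpd
  have h1 := hge (p * u) ⟨⟨a, by rw [hA0, ha]; push_cast; ring⟩,
    ⟨b, by rw [hB0, hb]; push_cast; ring⟩⟩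
  have h2 : 2 * u ≤ p * u := Nat.mul_le_mul_right u hp.two_le
  omega

end Pool.Agent.Q8.FI
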